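import Pool.Agent.Lib.MP_b5021c_nt.BP.H23.K1b
import Pool.Agent.Lib.MP_b5021c_nt.BP.H57.Gw

/-!
# Board b5, BpS, row K1S (helper23): the integer content of the closing is one

If `V = k W`, `k ≥ 2`, then for `al` in `Eis` with `2 Re al = k - 1` the completion of
`G = X - al W` is in `DD`, of rank `2N - 1` and of class `V(|N - al r|)`, `k r = N - m`,
`|N - al r| < N`: it is z-free, so `E` is z-free.
-/

namespace Pool.Agent.B5.BP23

open scoped LaurentPolynomial
open Polynomial Pool.Agent.B5 Pool.Agent.B5.BPR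
open Pool.Agent.MP_b5021c_nt (Eis)
open Pool.Agent.MP_b5021c_nt.Ire (bc)
open Pool.Agent.B5.H25.Bch
open Pool.Agent.B5.H96 (cst_mul_coeff)

/-! ## Numbers -/

theorem emb_val (x : Eis) : (Coef.emb x : ℂ) = Eis.emb x := rfl

/-- the number `al`. -/
theorem al_exists (k : ℤ) (hk : 2 ≤ k) : ∃ al : Eis, 2 * (Coef.emb al : ℂ).re = (k : ℝ) - 1 ∧
    4 * Complex.normSq (Coef.emb al : ℂ) ≤ ((k : ℝ) - 1) ^ 2 + 3 := by
  rcases Int.even_or_odd' k with ⟨j, hj | hj⟩
  · refine ⟨⟨j, 1⟩, ?_, ?_⟩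
    · rw [emb_val, Eis.emb_re, hj]
      push_cast
      ring
    · rw [emb_val, Complex.normSq_apply, Eis.emb_re, Eis.emb_im, hj]
      push_cast
      have := Eis.sqrt3_sq
      nlinarith
  · refine ⟨⟨j, 0⟩, ?_, ?_⟩
    · rw [emb_val, Eis.emb_re, hj]
      push_cast
      ring
    · rw [emb_val, Complex.normSq_apply, Eis.emb_re, Eis.emb_im, hj]
      push_cast
      nlinarith

theorem al_conj {k : ℤ} {al : Eis} (h : 2 * (Coef.emb al : ℂ).re = (k : ℝ) - 1) :
    (1 : Eis) + al = (k : Eis) - Coef.conj al := by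
  apply emb_inj
  rw [map_add, map_one, map_sub, BP90.embN, Coef.emb_conj]
  apply Complex.ext
  · simp only [Complex.add_re, Complex.one_re, Complex.sub_re, Complex.intCast_re,
      Complex.conj_re]
    linarith
  · simp only [Complex.add_im, Complex.one_im, Complex.sub_im, Complex.intCast_im,
      Complex.conj_im]
    ring

/-- the value: `|1 + al| ≤ k`, so `(1 + al) r ≠ N`. -/
theorem num_ne {k N r m : ℤ} {al : Eis} (hk : 2 ≤ k) (hN : 0 < N) (hm : 1 ≤ m) (hmN : m < N)
    (hr : k * r = N - m) (h1 : 2 * (Coef.emb al : ℂ).re = (k : ℝ) - 1)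
    (h2 : 4 * Complex.normSq (Coef.emb al : ℂ) ≤ ((k : ℝ) - 1) ^ 2 + 3) :
    ((N : Eis)) ≠ (1 + al) * (r : Eis) := by
  intro h0
  have h3 := congrArg (Coef.emb : Eis →+* ℂ) h0
  rw [map_mul, map_add, map_one, BP90.embN, BP90.embN] at h3
  have h4 := congrArg Complex.normSq h3
  rw [Complex.normSq_mul, Complex.normSq_intCast, Complex.normSq_intCast] at h4
  set a := (Coef.emb al : ℂ) with ha
  have h5 : Complex.normSq (1 + a) = 1 + 2 * a.re + Complex.normSq a := by
    simp only [Complex.normSq_apply, Complex.add_re, Complex.add_im, Complex.one_re,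
      Complex.one_im]
    ring
  rw [h5, h1] at h4
  have hkR : (2 : ℝ) ≤ k := by exact_mod_cast hk
  have h6 : (1 + ((k : ℝ) - 1) + Complex.normSq a) ≤ (k : ℝ) * k := by nlinarith
  have hrR : (k : ℝ) * r = N - m := by exact_mod_cast hr
  have hNR : (0 : ℝ) < N := by exact_mod_cast hN
  have hmR : (1 : ℝ) ≤ m := by exact_mod_cast hm
  have hmNR : (m : ℝ) < N := by exact_mod_cast hmN
  have h7 : (N : ℝ) * N ≤ (k * k) * (r * r) := by
    rw [h4]
    exact mul_le_mul_of_nonneg_right h6 (mul_self_nonneg _)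
  have h8 : ((k : ℝ) * k) * (r * r) = (N - m) * (N - m) := by
    calc ((k : ℝ) * k) * (r * r) = (k * r) * (k * r) := by ring
      _ = _ := by rw [hrR]
  rw [h8] at h7
  nlinarith

/-- the value is smaller than `N`. -/
theorem num_lt {k N r m : ℤ} {al : Eis} (hk : 2 ≤ k) (hN : 0 < N) (hm : 1 ≤ m) (hmN : m < N)
    (hr : k * r = N - m) (h1 : 2 * (Coef.emb al : ℂ).re = (k : ℝ) - 1)
    (h2 : 4 * Complex.normSq (Coef.emb al : ℂ) ≤ ((k : ℝ) - 1) ^ 2 + 3) :
    (nE ((N : Eis) - al * (r : Eis)) : ℝ) < (N : ℝ) ^ 2 := by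
  rw [H93.nE_cast, map_sub, map_mul, BP90.embN, BP90.embN, ← Complex.normSq_eq_norm_sq]
  set a := (Coef.emb al : ℂ) with ha
  have h5 : Complex.normSq ((N : ℂ) - a * r) =
      (N : ℝ) ^ 2 - 2 * a.re * (N * r) + Complex.normSq a * (r * r) := by
    simp only [Complex.normSq_apply, Complex.sub_re, Complex.sub_im, Complex.mul_re,
      Complex.mul_im, Complex.intCast_re, Complex.intCast_im]
    ring
  rw [h5, h1]
  have hkR : (2 : ℝ) ≤ k := by exact_mod_cast hk
  have hrR : (k : ℝ) * r = N - m := by exact_mod_cast hr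
  have hNR : (0 : ℝ) < N := by exact_mod_cast hN
  have hmR : (1 : ℝ) ≤ m := by exact_mod_cast hm
  have hmNR : (m : ℝ) < N := by exact_mod_cast hmN
  have hr0 : (0 : ℝ) < r := by
    by_contra hcon
    push Not at hcon
    nlinarith
  -- `normSq a * r < (k - 1) N`
  have h6 : Complex.normSq a * r < (k - 1) * N := by
    have h7 : 4 * (Complex.normSq a * r) * k ≤ (((k : ℝ) - 1) ^ 2 + 3) * (N - m) := by
      calc 4 * (Complex.normSq a * r) * k = (4 * Complex.normSq a) * (k * r) := by ring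
        _ = (4 * Complex.normSq a) * (N - m) := by rw [hrR]
        _ ≤ _ := mul_le_mul_of_nonneg_right h2 (by linarith)
    have h8 : (((k : ℝ) - 1) ^ 2 + 3) * (N - m) < (4 * k * (k - 1)) * N := by
      have h9 : ((k : ℝ) - 1) ^ 2 + 3 < 4 * k * (k - 1) := by nlinarith
      calc (((k : ℝ) - 1) ^ 2 + 3) * (N - m) ≤ (((k : ℝ) - 1) ^ 2 + 3) * N :=
            mul_le_mul_of_nonneg_left (by linarith) (by positivity)
        _ < _ := mul_lt_mul_of_pos_right h9 hNR
    have h9 : (4 * k) * (Complex.normSq a * r) < (4 * k) * ((k - 1) * N) := by linarith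
    exact lt_of_mul_lt_mul_left h9 (by linarith)
  have h7 : Complex.normSq a * (r * r) < ((k - 1) * N) * r := by
    calc Complex.normSq a * (r * r) = (Complex.normSq a * r) * r := by ring
      _ < _ := mul_lt_mul_of_pos_right h6 hr0
  linarith

theorem bev_lt {n N : ℕ} (hN : 3 ≤ N) (h : n < N ^ 2) : Bev n ≤ 2 * N - 1 := by
  unfold Bev
  split_ifs with h1 h2
  · omega
  · subst h2
    have : 4 ≤ N := by
      by_contra hcon
      have h3 : N = 3 := by omega
      rw [h3] at h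
      omega
    omega
  · have h3 : Nat.sqrt (4 * n) < 2 * N := by
      rw [Nat.sqrt_lt]
      nlinarith
    omega

/-! ## The row -/

theorem zfree_bc {L : Type} [AddCommGroup L] {E : AO ℤ L} (hz : ZFree (bc E)) : ZFree E := by
  obtain ⟨q, l, n, hq, hz⟩ := hz
  refine ⟨q, l, n, hq, fun a k hk => hz a k ?_⟩
  rw [Pool.Agent.MP_b5021c_nt.Ire.bc_coeff]
  intro h0
  exact hk (Pool.Agent.MP_b5021c_nt.Ire.cast_inj (h0.trans Int.cast_zero.symm))

/-- the main case. -/
theorem k1_two (h2 : MultiS) (h3 : StSpecS) (h5 : B2cS) (h6 : G0S) (h7 : EvRS) (hA : A3bS)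
    (hZ : ZfinS) (hUn : UnitAS) (hCI : ComplIrrS) (hC : ComplS) (hR : RkS) (hFcl : FclS)
    (hEv : EvS) (hEvm : EvmS) (hE2 : E2S) (hVZ : VZS) (hU : UnitRS)
    {P L : Type} [Fintype P] [DecidableEq P] [AddCommGroup L]
    [Module.Free ℤ L] [Module.Finite ℤ L] {phi : L →+ (P → ℤ)} {E : AO ℤ L} {N : ℕ} {p f : ℤ[X]}
    {S : L} {i : P} {e : (RO ℤ)ˣ} (h : co phi i S = 1) {k : ℤ} {V' : AO ℤ (Ker (co phi i))}
    (hX : Xt N p phi E) (hS : Gl phi E S i e f) (hI : ImS phi S)
    (hcl : cl (co phi i) S h e E = cst (LaurentPolynomial.C k) * V') (hk : 2 ≤ k) : False := by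
  have hN3 := hX.n3
  have hrkL := hX.rkL
  have hm1 := hS.pos
  have hmN : f.coeff 0 < N := BP57.gl_lt hE2 hVZ hU hX hS
  obtain ⟨hpz, -, hlt⟩ := BP57.gl_poly hE2 hVZ hU hX hS
  have hk0 : k ≠ 0 := by omega
  obtain ⟨al, hal1, hal2⟩ := al_exists k hk
  have halc := al_conj hal1
  have hkR : (2 : ℝ) ≤ k := by exact_mod_cast hk
  -- over `Eis`
  have hccZ := BP57.gl_cc hE2 hVZ hU hX hS
  have hcc : CC phi (bc E) S i (bcU e) := by
    refine ⟨dd_bc hX.dd (by omega), hccZ.two, (H09.ray_bc E S).2 hS.ray, h, ?_⟩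
    rw [bc_co, bc_co, H09.bcU_val, ← map_mul, ← map_add]
    exact (map_ne_zero_iff bcR bcR_inj).2 hccZ.v0
  have hclE : cl (co phi i) S h (bcU e) (bc E) =
      cst (LaurentPolynomial.C (k : Eis)) * bc V' := by
    rw [H09.cl_bc, hcl, map_mul]
    congr 1
    unfold cst
    rw [H09.bc_single, bcR_C]
  have hkE : (k : Eis) ≠ 0 := by
    intro h0
    exact hk0 (Pool.Agent.MP_b5021c_nt.Ire.cast_inj (h0.trans Int.cast_zero.symm))
  have H : Kx phi (bc E) S i (bcU e) h (k : Eis) al (bc V') :=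
    ⟨hcc, hclE, hkE, map_intCast _ _, halc⟩
  -- the apex
  have hV0 : (LaurentPolynomial.C k : RO ℤ) * V'.coeff 0 = toLaurent (p - f) := by
    have h8 := H47.cl_coeff_bin (co phi i) S h e E (fun a ha => hX.dd.bin a ha i) 0
    rw [hcl, cst_mul_coeff] at h8
    rw [h8, ← BP57.gl_apex hX hS]
    change E.coeff (0 : L) + (e : RO ℤ) * E.coeff ((0 : L) + S) = _
    rw [zero_add]
  obtain ⟨w, hw⟩ : ∃ w : ℤ[X], p - f = C k * w := by
    have h8 : C k ∣ p - f := by
      rw [C_dvd_iff_dvd_coeff]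
      intro j
      refine ⟨(V'.coeff 0).coeff j, ?_⟩
      have h9 := congrArg (fun F : RO ℤ => F.coeff (j : ℤ)) hV0
      change ((AddMonoidAlgebra.single 0 k : RO ℤ) * V'.coeff 0).coeff (j : ℤ) =
        (toLaurent (p - f)).coeff (j : ℤ) at h9
      rw [AddMonoidAlgebra.coeff_single_mul_apply, neg_zero, zero_add,
        Dcm.toLaurent_coeff_nonneg] at h9
      exact h9.symm
    exact h8
  have hCk : (LaurentPolynomial.C k : RO ℤ) ≠ 0 := C_ne_m hk0
  have hV0' : V'.coeff 0 = toLaurent w := by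
    rw [hw, map_mul, toLaurent_C] at hV0
    exact mul_left_cancel₀ hCk hV0
  have hr : k * w.coeff 0 = (N : ℤ) - f.coeff 0 := by
    have h8 := congrArg (fun F : ℤ[X] => F.coeff 0) hw
    change (p - f).coeff 0 = (C k * w).coeff 0 at h8
    rw [coeff_sub, hX.p0, coeff_C_mul] at h8
    exact h8.symm
  -- the constant coefficient of `G`
  have hNpos : (0 : ℤ) < N := by omega
  have hG0 : (Gx phi (bc E) i al (bc V')).coeff 0 =
      toLaurent (BP90.pE p - C al * BP90.pE w) := by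
    rw [Gx_coeff, bc_co, bc_co, hV0']
    change bcR (E.coeff (0 : L)) - _ = _
    rw [hX.e0, bcR_L, bcR_L, map_sub, map_mul, toLaurent_C]
  have hG00 : (BP90.pE p - C al * BP90.pE w).coeff 0 = (((N : ℤ)) : Eis) - al * ((w.coeff 0 : ℤ) : Eis) := by
    rw [coeff_sub, coeff_C_mul, coeff_map, coeff_map, hX.p0]
    rfl
  have hne := num_ne (N := (N : ℤ)) hk hNpos hm1 hmN hr hal1 hal2
  have hlt' := num_lt (N := (N : ℤ)) hk hNpos hm1 hmN hr hal1 hal2
  have hnum : (bc E).coeff 0 ≠ LaurentPolynomial.C (1 + al) * (bc V').coeff 0 := by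
    intro h0
    apply hne
    rw [bc_co, bc_co, hV0', hX.e0, bcR_L, bcR_L, ← toLaurent_C, ← map_mul] at h0
    have h8 := toLaurent_injective h0
    have h9 := congrArg (fun F : Eis[X] => F.coeff 0) h8
    simp only [coeff_C_mul, coeff_map, hX.p0] at h9
    exact h9
  have hst : Stable (Gx phi (bc E) i al (bc V')) := by
    refine H.stable h2 h3 h5 h6 h7 hA hZ ?_ ?_
    · rw [BP90.embN]
      apply Complex.ext
      · simp only [Complex.intCast_re, Complex.add_re, Complex.conj_re, Complex.one_re]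
        linarith
      · simp only [Complex.intCast_im, Complex.add_im, Complex.conj_im, Complex.one_im]
        ring
    · linarith
  obtain ⟨b, hDD, hc0⟩ := H.dd hUn hCI hC hR hI hst hnum
  -- class V
  have hZF : ∀ z : ℂ, ‖z‖ < 1 →
      ((BP90.pE p - C al * BP90.pE w).map (Coef.emb : Eis →+* ℂ)).eval z ≠ 0 := by
    intro z hz h0
    have hmap : ∀ q : ℤ[X], (BP90.pE q).map (Coef.emb : Eis →+* ℂ) = q.map (Coef.emb : ℤ →+* ℂ) := by
      intro q
      rw [Polynomial.map_map, emb_comp]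
    rw [Polynomial.map_sub, Polynomial.map_mul, map_C, hmap, hmap, eval_sub, eval_mul,
      eval_C] at h0
    have h8 : (p.map (Coef.emb : ℤ →+* ℂ)).eval z - (f.map (Coef.emb : ℤ →+* ℂ)).eval z =
        (k : ℂ) * (w.map (Coef.emb : ℤ →+* ℂ)).eval z := by
      have h9 := congrArg (fun F : ℤ[X] => (F.map (Coef.emb : ℤ →+* ℂ)).eval z) hw
      simp only [Polynomial.map_sub, Polynomial.map_mul, map_C, eval_sub, eval_mul, eval_C] at h9
      rw [h9]
      rfl
    have h9 := hlt z hz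
    set x := (p.map (Coef.emb : ℤ →+* ℂ)).eval z with hx
    set y := (f.map (Coef.emb : ℤ →+* ℂ)).eval z with hy
    set v := (w.map (Coef.emb : ℤ →+* ℂ)).eval z with hv
    refine val_ne' x v (k : ℂ) (Coef.emb al) ?_ ?_ ?_ ?_ h0
    · apply Complex.ext
      · simp only [Complex.intCast_re, Complex.add_re, Complex.conj_re, Complex.one_re]
        linarith
      · simp only [Complex.intCast_im, Complex.add_im, Complex.conj_im, Complex.one_im]
        ring
    · linarith
    · rw [← h8]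
      intro h10
      rw [sub_eq_zero.1 h10] at h9
      exact lt_irrefl _ h9
    · rw [← h8, sub_sub_cancel_left, norm_neg]
      exact h9.le
  have hz0 : (BP90.pE p - C al * BP90.pE w).coeff 0 ≠ 0 := by
    intro h0
    apply hZF 0 (by simp)
    rw [← coeff_zero_eq_eval_zero, coeff_map, h0, map_zero]
  have hV : ClassV ‖(Coef.emb ((((N : ℤ)) : Eis) - al * ((w.coeff 0 : ℤ) : Eis)) : ℂ)‖
      ((compl (Gx phi (bc E) i al (bc V'))).coeff 0) := by
    rw [hc0, hG0]
    refine ⟨?_, 0, BP90.pE p - C al * BP90.pE w, ?_, ?_, hZF⟩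
    · apply Coef.one_le
      rw [← hG00]
      exact hz0
    · rw [LaurentPolynomial.T_zero, one_mul]
    · rw [hG00]
  -- the rank
  have hfin := BP57.finrank_kerO hR h
  have hfr : Module.finrank ℤ (Ker (co phi i) × ℤ) = 2 * N - 1 := by
    rw [Module.finrank_prod, Module.finrank_self]
    omega
  have hnE : nE ((((N : ℤ)) : Eis) - al * ((w.coeff 0 : ℤ) : Eis)) < N ^ 2 := by
    have h8 : ((nE ((((N : ℤ)) : Eis) - al * ((w.coeff 0 : ℤ) : Eis)) : ℕ) : ℝ) <
        ((N ^ 2 : ℕ) : ℝ) := by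
      refine lt_of_lt_of_le hlt' ?_
      push_cast
      exact le_rfl
    exact_mod_cast h8
  have hzf := BP57.zfree_ext hFcl hEv hEvm hDD hV (by omega) (by
    rw [hfr]
    exact bev_lt hN3 hnE)
  -- z-free
  apply hX.nz
  apply zfree_bc
  have hco : ∀ F : Eis[X], (toLaurent F : RO Eis).coeff 0 = F.coeff 0 := by
    intro F
    have h8 := toL_coeff F 0
    exact h8
  refine H.zf hUn ?_ ?_ hzf
  · rw [hG0, hco]
    exact hz0
  · rw [hG0, hco, hG00, bc_co, hV0', bcR_L, hco, coeff_map]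
    intro h0
    apply hne
    have h8 : (Int.castRingHom Eis) (w.coeff 0) = ((w.coeff 0 : ℤ) : Eis) := rfl
    rw [h8] at h0
    linear_combination h0

/-- (BPR_K1) -/
theorem k1s (h2 : MultiS) (h3 : StSpecS) (h5 : B2cS) (h6 : G0S) (h7 : EvRS) (hA : A3bS)
    (hZ : ZfinS) (hUn : UnitAS) (hCI : ComplIrrS) (hC : ComplS) (hR : RkS) (hFcl : FclS)
    (hEv : EvS) (hEvm : EvmS) (hE2 : E2S) (hVZ : VZS) (hU : UnitRS) : K1S := by
  intro P L _ _ _ _ _ phi E N p f S i e h k V' hX hS hI hcl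
  rcases lt_trichotomy k 0 with hk | hk | hk
  · by_cases h1 : k = -1
    · exact Or.inr h1
    · exfalso
      refine k1_two h2 h3 h5 h6 h7 hA hZ hUn hCI hC hR hFcl hEv hEvm hE2 hVZ hU h hX hS hI
        (k := -k) (V' := -V') ?_ (by omega)
      rw [hcl, map_neg]
      have h8 : (cst (-LaurentPolynomial.C k) : AO ℤ (Ker (co phi i))) =
          -cst (LaurentPolynomial.C k) := by
        unfold cst
        rw [AddMonoidAlgebra.single_neg]
      rw [h8]
      ring
  · exfalso
    have hcc := BP57.gl_cc hE2 hVZ hU hX hS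
    apply hcc.v0
    have h8 := H47.cl_coeff_bin (co phi i) S h e E (fun a ha => hX.dd.bin a ha i) 0
    rw [hcl, cst_mul_coeff, hk, map_zero, zero_mul] at h8
    change 0 = E.coeff (0 : L) + (e : RO ℤ) * E.coeff ((0 : L) + S) at h8
    rw [zero_add] at h8
    exact h8.symm
  · by_cases h1 : k = 1
    · exact Or.inl h1
    · exfalso
      exact k1_two h2 h3 h5 h6 h7 hA hZ hUn hCI hC hR hFcl hEv hEvm hE2 hVZ hU h hX hS hI hcl
        (by omega)

end Pool.Agent.B5.BP23
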