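import Pool.Agent.Lib.MP_b5021c_nt.UF.H19.Dcp
import Pool.Agent.Lib.MP_b5021c_nt.BP.H57.Eta

/-!
# Board b5, BpS, row K1S (helper23), part 1: the modified completion

`D = (1 - y) X + y V`, `V = κ W`.  For `1 + al = κ - conj al` the element `G = X - al W` satisfies
`G^# kap = (1 + al) W - X`, so that the completion of `G` is again in `DD`.
-/

set_option linter.unusedSectionVars false

namespace Pool.Agent.B5.BP23

open scoped LaurentPolynomial
open Polynomial Pool.Agent.B5 Pool.Agent.B5.H83 Pool.Agent.B5.H96 Pool.Agent.B5.H07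

section gen

variable {O : Type} [CommRing O] [IsDomain O] [IsPrincipalIdealRing O] [Coef O]
  {L : Type} [AddCommGroup L] [Module.Free ℤ L] [Module.Finite ℤ L]

theorem cst_mul_m (p q : RO O) : (cst (p * q) : AO O L) = cst p * cst q := by
  unfold cst
  rw [AddMonoidAlgebra.single_mul_single, add_zero]

theorem cst_sub_m (p q : RO O) : (cst (p - q) : AO O L) = cst p - cst q := by
  unfold cst
  rw [AddMonoidAlgebra.single_sub]

theorem cst_add_m (p q : RO O) : (cst (p + q) : AO O L) = cst p + cst q := by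
  unfold cst
  rw [AddMonoidAlgebra.single_add]

theorem cst_ne_m {c : RO O} (hc : c ≠ 0) : (cst c : AO O L) ≠ 0 := by
  intro h
  apply hc
  have h1 := congrArg (fun F : AO O L => F.coeff 0) h
  change (cst c : AO O L).coeff 0 = (0 : AO O L).coeff 0 at h1
  unfold cst at h1
  rw [AddMonoidAlgebra.coeff_single, Finsupp.single_eq_same] at h1
  exact h1

theorem sharp_cst_m (p : RO O) : sharp (cst p : AO O L) = cst (rsh p) := by
  unfold cst
  rw [Pool.Agent.B5.H24.sharp_single, neg_zero]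

theorem C_ne_m {x : O} (h : x ≠ 0) : (LaurentPolynomial.C x : RO O) ≠ 0 := by
  intro h1
  exact h (Pool.Agent.B5.BP57.C_injL (h1.trans (map_zero LaurentPolynomial.C).symm))

theorem toL_coeff (p : O[X]) (n : ℕ) : (toLaurent p : RO O).coeff (n : ℤ) = p.coeff n := by
  induction p using Polynomial.induction_on' with
  | add p q hp hq =>
    rw [map_add, Polynomial.coeff_add, ← hp, ← hq]
    rfl
  | monomial k c =>
    rw [← C_mul_X_pow_eq_monomial, toLaurent_C_mul_X_pow, coeff_C_mul_X_pow]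
    rw [← LaurentPolynomial.single_eq_C_mul_T, AddMonoidAlgebra.coeff_single, Finsupp.single_apply]
    simp only [Nat.cast_inj, eq_comm]

/-- coefficients of a product with a monomial of `O[z, 1/z]`. -/
theorem mz_coeff (x : RO O) (j k : ℤ) (u : O) :
    (x * (AddMonoidAlgebra.single j u : RO O)).coeff k = x.coeff (k - j) * u := by
  rw [AddMonoidAlgebra.coeff_mul_single_eq_coeff_mul (k - j)]
  intro m' _
  constructor
  · intro h3
    rw [← h3, add_sub_cancel_right]
  · intro h3
    rw [h3, sub_add_cancel]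

theorem sl_cst_m {L' : Type} [AddCommGroup L'] [Module.Free ℤ L'] [Module.Finite ℤ L']
    (z0 : Circle) (v : AddChar L' Circle) (lam : L' →+ ℤ) (c : RO O) (F : AO O L') (s : ℂ) :
    (sl v lam (spec z0 (cst c * F))).eval s = evR z0 c * (sl v lam (spec z0 F)).eval s := by
  rw [Dcm.sl_eq_Ph, Dcm.Ph_cst, ← Dcm.sl_eq_Ph, Polynomial.eval_smul, smul_eq_mul]

theorem evR_C (z : Circle) (x : O) : evR z (LaurentPolynomial.C x : RO O) = Coef.emb x := by
  have h : (LaurentPolynomial.C x : RO O) = Dcm.mz 0 x := rfl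
  rw [h, Dcm.evR_mz]
  simp

theorem sl_eval_sub {L' : Type} [AddCommGroup L'] [Module.Free ℤ L'] [Module.Finite ℤ L']
    (z0 : Circle) (v : AddChar L' Circle) (lam : L' →+ ℤ) (F F' : AO O L') (s : ℂ) :
    (sl v lam (spec z0 (F - F'))).eval s =
      (sl v lam (spec z0 F)).eval s - (sl v lam (spec z0 F')).eval s := by
  have h1 : (sl v lam (spec z0 (F - F' + F'))).eval s =
      (sl v lam (spec z0 (F - F'))).eval s + (sl v lam (spec z0 F')).eval s := by
    rw [map_add (spec z0), H83.sl_add, Polynomial.eval_add]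
  rw [sub_add_cancel] at h1
  rw [h1, add_sub_cancel_right]

end gen

section cx

variable {O : Type} [CommRing O] [IsDomain O] [IsPrincipalIdealRing O] [Coef O]
  {P : Type} [Fintype P] [DecidableEq P] {L : Type} [AddCommGroup L] [Module.Free ℤ L]
  [Module.Finite ℤ L] (phi : L →+ (P → ℤ)) (D : AO O L) (S : L) (i0 : P) (eta : (RO O)ˣ)
  (h : co phi i0 S = 1) (ka al : O) (W : AO O (Ker (co phi i0)))

/-- The modified part without the port. -/
noncomputable def Gx : AO O (Ker (co phi i0)) :=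
  res (Ker (co phi i0)) D - cst (LaurentPolynomial.C al) * W

/-- The context: the closing has the content `ka`. -/
structure Kx : Prop where
  cc : CC phi D S i0 eta
  V : cl (co phi i0) S h eta D = cst (LaurentPolynomial.C ka) * W
  k0 : ka ≠ 0
  cj : Coef.conj ka = ka
  al1 : 1 + al = ka - Coef.conj al

variable {phi D S i0 eta h ka al W}

theorem Kx.bin (H : Kx phi D S i0 eta h ka al W) :
    ∀ a ∈ supp D, co phi i0 a = 0 ∨ co phi i0 a = 1 := fun a ha => H.cc.dd.bin a ha i0

theorem Kx.clc (H : Kx phi D S i0 eta h ka al W) (a : Ker (co phi i0)) :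
    (LaurentPolynomial.C ka : RO O) * W.coeff a =
      D.coeff (a : L) + (eta : RO O) * D.coeff ((a : L) + S) := by
  have h1 := H47.cl_coeff_bin (co phi i0) S h eta D H.bin a
  rw [H.V, cst_mul_coeff] at h1
  exact h1

theorem Gx_coeff (a : Ker (co phi i0)) :
    (Gx phi D i0 al W).coeff a = D.coeff (a : L) - LaurentPolynomial.C al * W.coeff a := by
  unfold Gx
  rw [AddMonoidAlgebra.coeff_sub, Finsupp.sub_apply, cst_mul_coeff, res_coeff]

/-- The reversal of the closing and of the part without the port. -/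
theorem revK (hUn : UnitAS) (cc : CC phi D S i0 eta) :
    ∃ (t : Ker (co phi i0)) (c : (RO O)ˣ),
      sharp (cl (co phi i0) S h eta D) * AddMonoidAlgebra.single t (c : RO O) =
        cl (co phi i0) S h eta D ∧
      sharp (res (Ker (co phi i0)) D) * AddMonoidAlgebra.single t (c : RO O) =
        cl (co phi i0) S h eta D - res (Ker (co phi i0)) D := by
  have hbin : ∀ a ∈ supp D, co phi i0 a = 0 ∨ co phi i0 a = 1 := fun a ha => cc.dd.bin a ha i0
  obtain ⟨w, hw⟩ := cc.dd.un
  obtain ⟨t, c', ⟨c, hc⟩, htc⟩ := (hUn O L (w : AO O L)).1 w.isUnit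
  rw [htc, ← hc] at hw
  have hco : ∀ a : L, D.coeff a = rsh (D.coeff (t - a)) * (c : RO O) := by
    intro a
    conv_lhs => rw [← hw]
    rw [Dcm.mul_single_coeff, sharp_coeff', neg_sub]
  have hkt : co phi i0 t = 1 := by
    have h1 : D.coeff (t - 0) ≠ 0 := by
      intro h2
      have h3 := hco 0
      rw [h2, map_zero (rsh (O := O)), zero_mul] at h3
      exact cc.dd.st.1 h3
    have h2 : D.coeff (t - S) ≠ 0 := by
      intro h2
      have h3 := hco S
      rw [h2, map_zero (rsh (O := O)), zero_mul] at h3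
      exact cc.ray.1 h3
    have h3 := hbin _ h1
    have h4 := hbin _ h2
    rw [map_sub, h] at h4
    rw [map_sub, map_zero] at h3
    omega
  obtain ⟨t', ht'⟩ : ∃ t' : Ker (co phi i0), t' = prj (co phi i0) S h t := ⟨_, rfl⟩
  have htt : (t' : L) = t - S := by
    rw [ht', prj_coe, hkt, one_smul]
  have h1 : sharp (cl (co phi i0) S h eta D) *
      AddMonoidAlgebra.single t' ((c * eta : (RO O)ˣ) : RO O) = cl (co phi i0) S h eta D := by
    have h2 := congrArg (cl (co phi i0) S h eta) hw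
    rw [map_mul, ← Pool.Agent.B5.H24.sharp_cl, cl_single, hkt, zpow_one, ← Units.val_mul,
      ← ht'] at h2
    exact h2
  refine ⟨t', c * eta, h1, ?_⟩
  apply AddMonoidAlgebra.ext
  apply Finsupp.ext
  intro a
  rw [Dcm.mul_single_coeff, sharp_coeff', AddMonoidAlgebra.coeff_sub, Finsupp.sub_apply,
    H47.cl_coeff_bin (co phi i0) S h eta D hbin a, res_coeff, res_coeff,
    add_sub_cancel_left, hco ((a : L) + S)]
  have h3 : ((-(a - t') : Ker (co phi i0)) : L) = t - (a + S) := by
    rw [Submodule.coe_neg, Submodule.coe_sub, htt]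
    abel
  rw [h3, Units.val_mul]
  ring

/-- The reversal of `G`. -/
theorem Kx.rev (hUn : UnitAS) (H : Kx phi D S i0 eta h ka al W) :
    ∃ (t : Ker (co phi i0)) (c : (RO O)ˣ),
      sharp (Gx phi D i0 al W) * AddMonoidAlgebra.single t (c : RO O) =
        W - Gx phi D i0 al W := by
  obtain ⟨t, c, h1, h2⟩ := revK (h := h) hUn H.cc
  refine ⟨t, c, ?_⟩
  rw [H.V] at h1 h2
  have hk : rsh (LaurentPolynomial.C ka : RO O) = LaurentPolynomial.C ka := by
    rw [H25.Bch.rsh_C, H.cj]
  have hne : (cst (LaurentPolynomial.C ka) : AO O (Ker (co phi i0))) ≠ 0 :=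
    cst_ne_m (C_ne_m H.k0)
  have h3 : sharp W * AddMonoidAlgebra.single t (c : RO O) = W := by
    rw [map_mul, sharp_cst_m, hk, mul_assoc] at h1
    exact mul_left_cancel₀ hne h1
  have h4 : (cst (LaurentPolynomial.C (Coef.conj al)) : AO O (Ker (co phi i0))) =
      cst (LaurentPolynomial.C ka) - 1 - cst (LaurentPolynomial.C al) := by
    have e1 : Coef.conj al = ka - 1 - al := by linear_combination H.al1
    rw [e1, map_sub, map_sub, map_one, cst_sub_m, cst_sub_m]
    rfl
  unfold Gx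
  rw [map_sub, map_mul, sharp_cst_m, H25.Bch.rsh_C, h4, sub_mul, h2, mul_assoc, h3]
  ring

/-- Coprimality. -/
theorem Kx.cop (hUn : UnitAS) (H : Kx phi D S i0 eta h ka al W) (d : AO O (Ker (co phi i0)))
    (hd : Irreducible d) (hA : d ∣ Gx phi D i0 al W) (hS : d ∣ sharp (Gx phi D i0 al W)) :
    False := by
  obtain ⟨t, c, hrev⟩ := H.rev hUn
  have hW : d ∣ W := by
    have e1 : W = Gx phi D i0 al W +
        sharp (Gx phi D i0 al W) * AddMonoidAlgebra.single t (c : RO O) := by
      rw [hrev]; ring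
    rw [e1]
    exact dvd_add hA (hS.mul_right _)
  have hX : d ∣ res (Ker (co phi i0)) D := by
    have e1 : res (Ker (co phi i0)) D =
        Gx phi D i0 al W + cst (LaurentPolynomial.C al) * W := by
      unfold Gx; ring
    rw [e1]
    exact dvd_add hA (hW.mul_left _)
  have hVX : d ∣ cl (co phi i0) S h eta D - res (Ker (co phi i0)) D := by
    rw [H.V]
    exact dvd_sub (hW.mul_left _) hX
  have hD : emK (Ker (co phi i0)) d ∣ D := by
    rw [Dcm.split (co phi i0) S h eta D H.bin]
    exact dvd_add (_root_.map_dvd _ hX) ((_root_.map_dvd _ hVX).mul_left _)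
  obtain ⟨w, hw⟩ := hD
  rcases H.cc.dd.irr.isUnit_or_isUnit hw with h9 | h9
  · have e1 := h9.map (cl (co phi i0) S h eta)
    rw [Dcm.cl_emK] at e1
    exact hd.not_isUnit e1
  · obtain ⟨a, c', -, hac⟩ := (hUn O L w).1 h9
    rw [hac] at hw
    have e1 : ∀ b : L, D.coeff b ≠ 0 → b - a ∈ Ker (co phi i0) := by
      intro b hb
      by_contra hcon
      apply hb
      rw [hw, Dcm.mul_single_coeff, emK_coeff_not _ _ _ hcon, zero_mul]
    have e2 := e1 0 H.cc.dd.st.1
    have e3 := e1 S H.cc.ray.1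
    rw [mem_Ker, map_sub] at e2 e3
    rw [map_zero] at e2
    rw [h] at e3
    omega

/-! ### Stability -/

theorem val_ne' (x w k a : ℂ) (hk : k = (a + (starRingEnd ℂ) a) + 1) (ha : 0 ≤ a.re)
    (hw : k * w ≠ 0) (hle : ‖k * w - x‖ ≤ ‖x‖) : x - a * w ≠ 0 := by
  intro h0
  have hx : x = a * w := by linear_combination h0
  have hw0 : w ≠ 0 := right_ne_zero_of_mul hw
  have e1 : k * w - x = ((starRingEnd ℂ) a + 1) * w := by
    rw [hx, hk]; ring
  rw [e1, hx, norm_mul, norm_mul] at hle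
  have e2 : ‖(starRingEnd ℂ) a + 1‖ ≤ ‖a‖ := le_of_mul_le_mul_right hle (norm_pos_iff.2 hw0)
  have e3 : Complex.normSq ((starRingEnd ℂ) a + 1) ≤ Complex.normSq a := by
    rw [Complex.normSq_eq_norm_sq, Complex.normSq_eq_norm_sq]
    exact pow_le_pow_left₀ (norm_nonneg _) e2 2
  simp only [Complex.normSq_apply, Complex.add_re, Complex.add_im, Complex.conj_re,
    Complex.conj_im, Complex.one_re, Complex.one_im] at e3
  nlinarith

theorem Kx.pos (h6 : G0S) (H : Kx phi D S i0 eta h ka al W) (lam : L →+ ℤ) (hS : lam S = 0)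
    (hlam : ∀ a ∈ supp D, a ≠ 0 → a ≠ S → 0 < lam a) :
    Pos (lam.comp (incl (Ker (co phi i0)))) (Gx phi D i0 al W) := by
  obtain ⟨g1, g2, g3, g4, g5, g6⟩ := h6 O P L phi D S i0 eta h H.cc
  have hPV := g6 lam hS hlam
  intro a ha ha0
  rw [Finsupp.mem_support_iff, Gx_coeff] at ha
  by_cases hD : D.coeff (a : L) = 0
  · rw [hD, zero_sub, neg_ne_zero] at ha
    refine hPV a ?_ ha0
    rw [Finsupp.mem_support_iff, H.V, cst_mul_coeff]
    exact mul_ne_zero (C_ne_m H.k0) (right_ne_zero_of_mul ha)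
  · refine hlam (a : L) hD (fun h0 => ha0 (Subtype.ext h0)) ?_
    intro h1
    have h2 : co phi i0 (a : L) = 0 := a.2
    rw [h1, h] at h2
    exact one_ne_zero h2

theorem Kx.stable (h2 : MultiS) (h3 : StSpecS) (h5 : B2cS) (h6 : G0S) (h7 : EvRS) (hA : A3bS)
    (hZ : ZfinS) (H : Kx phi D S i0 eta h ka al W)
    (hk : (Coef.emb ka : ℂ) = (Coef.emb al + (starRingEnd ℂ) (Coef.emb al)) + 1)
    (ha : 0 ≤ (Coef.emb al : ℂ).re) : Stable (Gx phi D i0 al W) := by
  obtain ⟨lam, hlS, hlam⟩ := H.cc.ray.2.2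
  refine Dcm.stable_of_generic h7 hA hZ _ (lam.comp (incl (Ker (co phi i0))))
    (H.pos h6 lam hlS hlam) (D.coeff 0 + (eta : RO O) * D.coeff S) H.cc.v0 ?_
  intro z0 hz u s hs
  obtain ⟨h8, h9⟩ := harn (h := h) h2 h3 h5 h6 h7 H.cc lam hlS hlam z0 hz u s hs
  rw [H.V, sl_cst_m, evR_C] at h8 h9
  unfold Gx
  rw [sl_eval_sub, sl_cst_m, evR_C]
  exact val_ne' _ _ _ _ hk ha h8 h9

end cx

end Pool.Agent.B5.BP23
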