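import Pool.Agent.Lib.MP_b5021c_nt.BP.H23.K1a
import Pool.Agent.Lib.MP_b5021c_nt.BP.H57.T2n
import Pool.Agent.Lib.MP_b5021c_nt.B.H09.Sha

/-!
# Board b5, BpS, row K1S (helper23), part 2: rank, ports, the z-free case
-/

set_option linter.unusedSectionVars false

namespace Pool.Agent.B5.BP23

open scoped LaurentPolynomial
open Polynomial Pool.Agent.B5 Pool.Agent.B5.H83 Pool.Agent.B5.H96 Pool.Agent.B5.H07

section cx

variable {O : Type} [CommRing O] [IsDomain O] [IsPrincipalIdealRing O] [Coef O]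
  {P : Type} [Fintype P] [DecidableEq P] {L : Type} [AddCommGroup L] [Module.Free ℤ L]
  [Module.Finite ℤ L] {phi : L →+ (P → ℤ)} {D : AO O L} {S : L} {i0 : P} {eta : (RO O)ˣ}
  {h : co phi i0 S = 1} {ka al : O} {W : AO O (Ker (co phi i0))}

theorem sub_coeffW (a : Ker (co phi i0)) :
    (W - Gx phi D i0 al W).coeff a = W.coeff a - (Gx phi D i0 al W).coeff a := by
  rw [AddMonoidAlgebra.coeff_sub, Finsupp.sub_apply]

/-- The support of `G` is of full rank. -/
theorem Kx.rkG (hUn : UnitAS) (hR : RkS) (H : Kx phi D S i0 eta h ka al W)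
    (hnum : D.coeff 0 ≠ LaurentPolynomial.C (1 + al) * W.coeff 0) :
    rk (supp (Gx phi D i0 al W)) = Module.finrank ℤ (Ker (co phi i0)) := by
  obtain ⟨t, c, hrev⟩ := H.rev hUn
  set G := Gx phi D i0 al W with hG
  set T := satur (Submodule.span ℤ (supp G)) with hT
  have hGT : ∀ a, G.coeff a ≠ 0 → a ∈ T := fun a ha =>
    H63.le_satur _ (Submodule.subset_span ha)
  have hrc : ∀ a, (W - G).coeff a = rsh (G.coeff (t - a)) * (c : RO O) := by
    intro a
    rw [← hrev, Dcm.mul_single_coeff, sharp_coeff', neg_sub]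
  have htT : t ∈ T := by
    by_contra hcon
    have h1 : G.coeff t = 0 := by
      by_contra h2
      exact hcon (hGT t h2)
    have h2 := hrc 0
    rw [sub_zero, h1, map_zero (rsh (O := O)), zero_mul, hG, sub_coeffW, Gx_coeff] at h2
    apply hnum
    have h3 : ((0 : Ker (co phi i0)) : L) = 0 := rfl
    rw [h3] at h2
    rw [map_add, map_one]
    linear_combination -h2
  have hWT : ∀ a, W.coeff a ≠ 0 → a ∈ T := by
    intro a ha
    by_cases h1 : G.coeff a = 0
    · have h2 := hrc a
      rw [hG, sub_coeffW, ← hG, h1, sub_zero] at h2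
      have h3 : G.coeff (t - a) ≠ 0 := by
        intro h4
        rw [h4, map_zero (rsh (O := O)), zero_mul] at h2
        exact ha h2
      have h4 := T.sub_mem htT (hGT _ h3)
      rwa [sub_sub_cancel] at h4
    · exact hGT a h1
  have hXT : ∀ a : Ker (co phi i0), D.coeff (a : L) ≠ 0 → a ∈ T := by
    intro a ha
    by_cases h1 : G.coeff a = 0
    · apply hWT
      intro h2
      rw [hG, Gx_coeff, h2, mul_zero, sub_zero] at h1
      exact ha h1
    · exact hGT a h1
  have hfin := Pool.Agent.B5.BP57.finrank_kerO hR h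
  refine le_antisymm ((hR _ (Ker (co phi i0))).2.2.1 _) ?_
  have hsp : rk (supp D) ≤ rk (incl (Ker (co phi i0)) '' supp G ∪ {S}) := by
    refine (hR L L).2.2.2.2.2.2.2.2.1 _ _ ?_
    intro a ha
    have key : ∀ b : Ker (co phi i0), b ∈ T → ∃ n : ℤ, n ≠ 0 ∧
        n • (b : L) ∈ Submodule.span ℤ (incl (Ker (co phi i0)) '' supp G ∪ {S}) := by
      rintro b ⟨n, hn, hb⟩
      refine ⟨n, hn, ?_⟩
      have h1 : n • (b : L) = (Ker (co phi i0)).subtype (n • b) := by simp
      rw [h1]
      have h2 : (Submodule.span ℤ (supp G)).map (Ker (co phi i0)).subtype ≤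
          Submodule.span ℤ (incl (Ker (co phi i0)) '' supp G ∪ {S}) := by
        rw [Submodule.map_span]
        exact Submodule.span_mono (fun x hx => Or.inl hx)
      exact h2 (Submodule.mem_map_of_mem hb)
    rcases H.bin a ha with h0 | h1
    · exact key ⟨a, h0⟩ (hXT ⟨a, h0⟩ ha)
    · have hK : a - S ∈ Ker (co phi i0) := by
        rw [mem_Ker, map_sub, h1, h, sub_self]
      have h2 : (⟨a - S, hK⟩ : Ker (co phi i0)) ∈ T := by
        by_cases h3 : D.coeff (a - S) = 0
        · apply hWT
          intro h4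
          have h5 := H.clc ⟨a - S, hK⟩
          rw [h4, mul_zero] at h5
          change 0 = D.coeff (a - S) + (eta : RO O) * D.coeff (a - S + S) at h5
          rw [h3, zero_add, sub_add_cancel] at h5
          exact ha ((mul_eq_zero.1 h5.symm).resolve_left eta.ne_zero)
        · exact hXT ⟨a - S, hK⟩ h3
      obtain ⟨n, hn, h3⟩ := key _ h2
      refine ⟨n, hn, ?_⟩
      change n • (a - S) ∈ _ at h3
      have h4 : n • a = n • (a - S) + n • S := by rw [smul_sub, sub_add_cancel]
      rw [h4]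
      exact Submodule.add_mem _ h3 (Submodule.smul_mem _ _ (Submodule.subset_span (Or.inr rfl)))
  rw [H.cc.dd.spn] at hsp
  have h1 := (hR L L).2.2.2.2.2.1 (incl (Ker (co phi i0)) '' supp G) {S}
  have h2 := (hR (Ker (co phi i0)) L).2.2.2.1 (incl (Ker (co phi i0))) (supp G)
    (Subtype.val_injective)
  have h3 := (hR L L).2.2.2.2.2.2.1 S H.cc.ray.2.1
  omega

/-- The exponents of `G` and of its reversal are subsets of the ports outside `S`. -/
theorem Kx.binG (H : Kx phi D S i0 eta h ka al W) (a : Ker (co phi i0))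
    (ha : D.coeff (a : L) ≠ 0 ∨ W.coeff a ≠ 0) : Bin (phO phi S i0) a := by
  have hkey : ∀ j, phi S j = 0 → phi (a : L) j = 0 ∨ phi (a : L) j = 1 := by
    intro j hj
    rcases ha with h1 | h1
    · exact H.cc.dd.bin _ h1 j
    · by_cases h2 : D.coeff (a : L) = 0
      · have h3 := H.clc a
        rw [h2, zero_add] at h3
        have h4 : D.coeff ((a : L) + S) ≠ 0 := by
          intro h5
          rw [h5, mul_zero] at h3
          exact mul_ne_zero (C_ne_m H.k0) h1 h3
        have h5 := H.cc.dd.bin _ h4 j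
        rw [map_add, Pi.add_apply, hj, add_zero] at h5
        exact h5
      · exact H.cc.dd.bin _ h2 j
  intro j
  change (if phi S j = 0 then phi (a : L) j else 0) = 0 ∨
    (if phi S j = 0 then phi (a : L) j else 0) = 1
  by_cases hj : phi S j = 0
  · rw [if_pos hj]
    exact hkey j hj
  · rw [if_neg hj]
    left; rfl

/-- The completion is in `DD`. -/
theorem Kx.dd (hUn : UnitAS) (hCI : ComplIrrS) (hC : ComplS) (hR : RkS)
    (H : Kx phi D S i0 eta h ka al W) (hI : ImS phi S) (hst : Stable (Gx phi D i0 al W))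
    (hnum : D.coeff 0 ≠ LaurentPolynomial.C (1 + al) * W.coeff 0) :
    ∃ b : Ker (co phi i0), DD (phC (phO phi S i0) b) (compl (Gx phi D i0 al W)) ∧
      (compl (Gx phi D i0 al W)).coeff 0 = (Gx phi D i0 al W).coeff 0 := by
  obtain ⟨h1, h2, h3, h4, h5⟩ := hC O (Ker (co phi i0)) _ hst
  obtain ⟨t, c, hrev⟩ := H.rev hUn
  have hG0 : Gx phi D i0 al W ≠ 0 := by
    intro h0
    apply hst.1
    rw [h0]
    rfl
  have hsG : ∀ a, (Gx phi D i0 al W).coeff a ≠ 0 → D.coeff (a : L) ≠ 0 ∨ W.coeff a ≠ 0 := by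
    intro a ha
    rw [Gx_coeff] at ha
    by_contra hcon
    push Not at hcon
    rw [hcon.1, hcon.2, mul_zero, sub_zero] at ha
    exact ha rfl
  have hsR : ∀ a, (Gx phi D i0 al W).coeff (t - a) ≠ 0 → D.coeff (a : L) ≠ 0 ∨ W.coeff a ≠ 0 := by
    intro a ha
    have h6 : (W - Gx phi D i0 al W).coeff a ≠ 0 := by
      rw [← hrev, Dcm.mul_single_coeff, sharp_coeff', neg_sub]
      refine mul_ne_zero ?_ c.ne_zero
      intro h7
      apply ha
      have h8 : rsh (rsh ((Gx phi D i0 al W).coeff (t - a))) = 0 := by rw [h7, map_zero]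
      rwa [Pool.Agent.B5.H09.rsh_rsh] at h8
    rw [sub_coeffW] at h6
    by_contra hcon
    push Not at hcon
    rw [Gx_coeff, hcon.1, hcon.2, mul_zero, sub_zero, sub_zero] at h6
    exact h6 rfl
  refine ⟨t, ⟨?_, ?_, h1, h2, hCI O (Ker (co phi i0)) _ hG0
    (fun d hd hdA hdS => H.cop hUn d hd hdA hdS), ?_⟩, h3⟩
  · intro x y hxy
    have h6 : x.2 = y.2 := congrFun hxy none
    have h7 : phO phi S i0 (x.1 + x.2 • t) = phO phi S i0 (y.1 + y.2 • t) := by
      funext p
      exact congrFun hxy (some p)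
    have h8 := Pool.Agent.B5.BP57.injO hI h h7
    rw [h6] at h8
    exact Prod.ext (add_right_cancel h8) h6
  · intro x hx i
    rcases h4 x hx with ⟨h6, h7⟩ | ⟨h6, h7⟩
    · cases i with
      | none => left; exact h6
      | some p =>
        have h8 := H.binG x.1 (hsG _ h7) p
        have h9 : phC (phO phi S i0) t x (some p) = phO phi S i0 x.1 p := by
          change phO phi S i0 (x.1 + x.2 • t) p = _
          rw [h6, zero_smul, add_zero]
        rw [h9]
        exact h8
    · cases i with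
      | none => right; exact h6
      | some p =>
        have h8 := H.binG (x.1 + t) (hsR _ (by
          have : t - (x.1 + t) = -x.1 := by abel
          rw [this]
          exact h7)) p
        have h9 : phC (phO phi S i0) t x (some p) = phO phi S i0 (x.1 + t) p := by
          change phO phi S i0 (x.1 + x.2 • t) p = _
          rw [h6, one_smul]
        rw [h9]
        exact h8
  · rw [h5, H.rkG hUn hR hnum, Module.finrank_prod, Module.finrank_self]

/-- The completion is not z-free unless `D` is. -/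
theorem Kx.zf (hUn : UnitAS) (H : Kx phi D S i0 eta h ka al W)
    (hG0 : ((Gx phi D i0 al W).coeff 0).coeff 0 ≠ 0)
    (hnum : ((Gx phi D i0 al W).coeff 0).coeff 0 ≠ (W.coeff 0).coeff 0)
    (hz : ZFree (compl (Gx phi D i0 al W))) : ZFree D := by
  obtain ⟨t, c, hrev⟩ := H.rev hUn
  obtain ⟨q, l, n, hq, hz⟩ := hz
  set G := Gx phi D i0 al W with hG
  obtain ⟨j, u, hj⟩ := Dcm.unit_mz c
  obtain ⟨j2, u2, hj2⟩ := Dcm.unit_mz eta
  have hq0 : (q : ℤ) ≠ 0 := by exact_mod_cast hq.ne'
  -- the part without the new variable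
  have hz0 : ∀ (a : Ker (co phi i0)) (k : ℤ), (G.coeff a).coeff k ≠ 0 →
      (q : ℤ) * k = l (a, 0) + q * n := by
    intro a k hk
    refine hz (a, 0) k ?_
    rw [H59.compl_coeff, if_pos rfl]
    exact hk
  have hz1 : ∀ (a : Ker (co phi i0)) (k : ℤ), ((sharp G).coeff a).coeff k ≠ 0 →
      (q : ℤ) * k = l (a, 1) + q * n := by
    intro a k hk
    refine hz (a, 1) k ?_
    rw [H59.compl_coeff, if_neg one_ne_zero, if_pos rfl, ← sharp_coeff']
    exact hk
  have hl : ∀ a : Ker (co phi i0), l (a, 1) = l (a, 0) + l (0, 1) := by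
    intro a
    rw [← map_add, Prod.mk_add_mk, add_zero, zero_add]
  have hla : ∀ a b : Ker (co phi i0), l (a - b, 0) = l (a, 0) - l (b, 0) := by
    intro a b
    rw [← map_sub, Prod.mk_sub_mk, sub_zero]
  have hl0 : l ((0 : Ker (co phi i0)), (0 : ℤ)) = 0 := map_zero l
  -- n = 0
  have hn : (q : ℤ) * n = 0 := by
    have h1 := hz0 0 0 hG0
    rw [hl0, mul_zero, zero_add] at h1
    exact h1.symm
  -- the reversal
  have hz2 : ∀ (a : Ker (co phi i0)) (k : ℤ), ((W - G).coeff a).coeff k ≠ 0 →
      (q : ℤ) * k = l (a, 0) + (q * j - l (t, 0) + l (0, 1)) := by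
    intro a k hk
    rw [← hrev, Dcm.mul_single_coeff, hj] at hk
    unfold Dcm.mz at hk
    rw [mz_coeff] at hk
    have h1 := hz1 (a - t) (k - j) (left_ne_zero_of_mul hk)
    rw [hl, hla, hn] at h1
    linear_combination h1
  have hδ : (q : ℤ) * j - l (t, 0) + l (0, 1) = 0 := by
    by_contra hcon
    apply hnum
    have h1 : ((W - G).coeff 0).coeff 0 = 0 := by
      by_contra h2
      have h3 := hz2 0 0 h2
      rw [hl0, mul_zero, zero_add] at h3
      exact hcon h3.symm
    rw [hG, sub_coeffW, ← hG, AddMonoidAlgebra.coeff_sub, Finsupp.sub_apply, sub_eq_zero] at h1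
    exact h1.symm
  -- `W`, `X`, `V`
  have hzW : ∀ (a : Ker (co phi i0)) (k : ℤ), (W.coeff a).coeff k ≠ 0 →
      (q : ℤ) * k = l (a, 0) := by
    intro a k hk
    by_cases h1 : (G.coeff a).coeff k = 0
    · have h2 := hz2 a k (by
        rw [hG, sub_coeffW, ← hG, AddMonoidAlgebra.coeff_sub, Finsupp.sub_apply, h1, sub_zero]
        exact hk)
      rw [hδ, add_zero] at h2
      exact h2
    · have h2 := hz0 a k h1
      rw [hn, add_zero] at h2
      exact h2
  have hCc : ∀ (x : O) (F : RO O) (k : ℤ), (LaurentPolynomial.C x * F).coeff k = x * F.coeff k := by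
    intro x F k
    change ((AddMonoidAlgebra.single 0 x : RO O) * F).coeff k = _
    rw [AddMonoidAlgebra.coeff_single_mul_apply, neg_zero, zero_add]
  have hzX : ∀ (a : Ker (co phi i0)) (k : ℤ), (D.coeff (a : L)).coeff k ≠ 0 →
      (q : ℤ) * k = l (a, 0) := by
    intro a k hk
    by_cases h1 : (W.coeff a).coeff k = 0
    · have h2 := hz0 a k (by
        rw [hG, Gx_coeff, AddMonoidAlgebra.coeff_sub, Finsupp.sub_apply, hCc, h1, mul_zero,
          sub_zero]
        exact hk)
      rw [hn, add_zero] at h2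
      exact h2
    · exact hzW a k h1
  refine ⟨q, (l.comp ((AddMonoidHom.inl (Ker (co phi i0)) ℤ).comp (prj (co phi i0) S h))) -
    ((q : ℤ) * j2) • co phi i0, 0, hq, ?_⟩
  intro a k hk
  have ha : D.coeff a ≠ 0 := by
    intro h0
    rw [h0] at hk
    exact hk rfl
  have hval : ((l.comp ((AddMonoidHom.inl (Ker (co phi i0)) ℤ).comp (prj (co phi i0) S h))) -
    ((q : ℤ) * j2) • co phi i0) a = l (prj (co phi i0) S h a, 0) - (q : ℤ) * j2 * co phi i0 a := by
    rw [AddMonoidHom.sub_apply, AddMonoidHom.smul_apply, smul_eq_mul]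
    rfl
  rw [hval, mul_zero, add_zero]
  rcases H.bin a ha with h0 | h1
  · have h2 : prj (co phi i0) S h a = ⟨a, h0⟩ := by
      apply Subtype.ext
      rw [prj_coe, h0, zero_smul, sub_zero]
    rw [h2, h0, mul_zero, sub_zero]
    exact hzX ⟨a, h0⟩ k hk
  · have h2 : ((prj (co phi i0) S h a : Ker (co phi i0)) : L) = a - S := by
      rw [prj_coe, h1, one_smul]
    set b := prj (co phi i0) S h a with hb
    have h3 := H.clc b
    rw [h2, sub_add_cancel, hj2] at h3
    unfold Dcm.mz at h3
    have h4 : ((AddMonoidAlgebra.single j2 (u2 : O) : RO O) * D.coeff a).coeff (k + j2) ≠ 0 := by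
      rw [mul_comm, mz_coeff, add_sub_cancel_right]
      exact mul_ne_zero hk u2.ne_zero
    have h5 : (q : ℤ) * (k + j2) = l (b, 0) := by
      by_cases h6 : (W.coeff b).coeff (k + j2) = 0
      · refine hzX b (k + j2) ?_
        rw [h2]
        intro h7
        have h8 := congrArg (fun F : RO O => F.coeff (k + j2)) h3
        change (LaurentPolynomial.C ka * W.coeff b).coeff (k + j2) =
          (D.coeff (a - S) + AddMonoidAlgebra.single j2 (u2 : O) * D.coeff a).coeff (k + j2) at h8
        rw [hCc, h6, mul_zero, AddMonoidAlgebra.coeff_add, Finsupp.add_apply, h7, zero_add] at h8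
        exact h4 h8.symm
      · exact hzW b (k + j2) h6
    rw [h1, mul_one]
    linear_combination h5

end cx

end Pool.Agent.B5.BP23
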